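import Pool.Agent.N93.PS.LOC
import Pool.Agent.H38R2.CG2.KB

/-!
# Averages over v
-/

set_option autoImplicit false

namespace Pool.Agent.N71.PS.AV

open Finset Filter NumberField Pool.Agent.H38R2.CG Pool.Agent.H38R2.CG2
open Pool.Agent.H38R2.CG.TB6ah
open scoped Classical

/-- the local factor of the coefficients -/
noncomputable def phi (C0 p v : ℕ) : ℝ := if p ∣ v then 1 else (C0 : ℝ) / p

theorem phi_nonneg (C0 p v : ℕ) : 0 ≤ phi C0 p v := by
  unfold phi
  split_ifs
  · exact zero_le_one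
  · positivity

theorem phi_per (C0 p v : ℕ) : phi C0 p (v + p ^ 1) = phi C0 p v := by
  unfold phi
  have : p ∣ v + p ^ 1 ↔ p ∣ v := by
    rw [pow_one]
    exact Nat.dvd_add_self_right
  simp only [this]

theorem phi_sum (C0 p : ℕ) (hp : p.Prime) :
    ∑ v ∈ range (p ^ 1), phi C0 p v ≤ (C0 + 1 : ℝ) := by
  rw [pow_one]
  obtain ⟨m, rfl⟩ : ∃ m, p = m + 1 := ⟨p - 1, by have := hp.pos; omega⟩
  rw [Finset.sum_range_succ']
  have h4 : ∀ c ∈ Finset.range m, phi C0 (m + 1) (c + 1) = (C0 : ℝ) / ((m + 1 : ℕ) : ℝ) := by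
    intro c hc
    rw [Finset.mem_range] at hc
    unfold phi
    rw [if_neg]
    intro hd
    have := Nat.le_of_dvd (by omega) hd
    omega
  rw [Finset.sum_congr rfl h4, Finset.sum_const, Finset.card_range, nsmul_eq_mul]
  have h5 : phi C0 (m + 1) 0 = 1 := by
    unfold phi
    rw [if_pos (dvd_zero _)]
  rw [h5]
  have h6 : (m : ℝ) * ((C0 : ℝ) / ((m + 1 : ℕ) : ℝ)) ≤ C0 := by
    push_cast
    rw [mul_div_assoc', div_le_iff₀ (by positivity)]
    have : (0 : ℝ) ≤ C0 := Nat.cast_nonneg _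
    nlinarith
  linarith

theorem kap_le' {z X : ℕ} {P : Finset ℕ} {δ : ℝ} {C0 : ℕ} {ρ : ℕ → ℝ}
    (h : SWt z X P δ C0 ρ) (f v : ℕ) (hf : 1 ≤ f) (hsf : Squarefree f) :
    |kap X ρ f v| ≤ GG X ρ * ∏ p ∈ f.primeFactors, phi C0 p v := by
  have hg : 0 < Nat.gcd f v := Nat.gcd_pos_of_pos_left v hf
  have hd : f / Nat.gcd f v ∣ f := Nat.div_dvd_of_dvd (Nat.gcd_dvd_left f v)
  have hsq := hsf.squarefree_of_dvd hd
  have h1 := h.div (f / Nat.gcd f v) hsq
  unfold kap
  refine h1.trans (le_of_eq ?_)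
  have h2 : ((f / Nat.gcd f v : ℕ) : ℝ) = ∏ p ∈ (f / Nat.gcd f v).primeFactors, (p : ℝ) := by
    conv_lhs => rw [← Nat.prod_primeFactors_of_squarefree hsq]
    push_cast
    rfl
  have h3 : (f / Nat.gcd f v).primeFactors = f.primeFactors.filter (fun p => ¬ p ∣ v) := by
    ext p
    rw [Finset.mem_filter, Nat.mem_primeFactors, Nat.mem_primeFactors]
    have hfg : f = (f / Nat.gcd f v) * Nat.gcd f v := (Nat.div_mul_cancel (Nat.gcd_dvd_left f v)).symm
    constructor
    · rintro ⟨hp, hpd, -⟩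
      refine ⟨⟨hp, hpd.trans hd, by omega⟩, fun hpv => ?_⟩
      have hpg : p ∣ Nat.gcd f v := Nat.dvd_gcd (hpd.trans hd) hpv
      have h4 : p * p ∣ f := by
        rw [hfg]
        exact Nat.mul_dvd_mul hpd hpg
      have := hsf p h4
      exact hp.one_lt.ne' (Nat.isUnit_iff.1 this)
    · rintro ⟨⟨hp, hpd, -⟩, hpv⟩
      refine ⟨hp, ?_, hsq.ne_zero⟩
      rw [hfg] at hpd
      rcases hp.dvd_mul.1 hpd with h4 | h4
      · exact h4
      · exact absurd (h4.trans (Nat.gcd_dvd_right f v)) hpv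
  have h4 : ∏ p ∈ f.primeFactors, phi C0 p v =
      ∏ p ∈ (f / Nat.gcd f v).primeFactors, ((C0 : ℝ) / p) := by
    rw [h3, Finset.prod_filter]
    refine Finset.prod_congr rfl fun p _ => ?_
    unfold phi
    by_cases hp : p ∣ v
    · rw [if_pos hp, if_neg (not_not.2 hp)]
    · rw [if_neg hp, if_pos hp]
  rw [h4, Finset.prod_div_distrib, Finset.prod_const, ← h2]
  ring

theorem D_AV_true (hLOC : D_LOC) (h6c : P_TB6c) : D_AV := by
  intro z r e hz hr F0
  obtain ⟨T, hT1, hTQ, hT⟩ := hLOC z r e hz hr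
  refine ⟨(F0 : ℝ) * T, by positivity, ?_⟩
  intro X V f n P δ C0 ρ F I hS hC0 hf hfF hsf hfQ hn hF hFn hFI
  obtain ⟨t1, t2⟩ := hT n hn
  have hG := KBh.GG_nonneg hS
  have hI0 : 0 ≤ I := by simpa using hFI 0 le_rfl
  have hpr : ∀ l ∈ f.primeFactors, l.Prime := fun l hl => Nat.prime_of_mem_primeFactors hl
  obtain ⟨g1, g2⟩ := LOC.sum_prod_crt f.primeFactors hpr (fun _ => 1) (fun p v => phi C0 p v)
    (fun l _ v => phi_per C0 l v)
  have hfp : ∏ l ∈ f.primeFactors, l ^ 1 = f := by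
    simp only [pow_one]
    exact Nat.prod_primeFactors_of_squarefree hsf
  rw [hfp] at g1 g2
  have hfT : f.Coprime T := by
    by_contra hcon
    obtain ⟨p, hp, hp1, hp2⟩ := Nat.Prime.not_coprime_iff_dvd.1 hcon
    exact Nat.Prime.not_coprime_iff_dvd.2 ⟨p, hp, hp1, hTQ p hp hp2⟩ hfQ
  have hhn : ∀ v, 0 ≤ hh z r e n v := by
    intro v
    unfold hh
    split_ifs
    · positivity
    · exact le_refl (0 : ℝ)
  have hPn : ∀ v, 0 ≤ ∏ p ∈ f.primeFactors, phi C0 p v :=
    fun v => Finset.prod_nonneg fun p _ => phi_nonneg _ _ _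
  set Sf : ℝ := ∑ v ∈ range f, ∏ p ∈ f.primeFactors, phi C0 p v with hSf
  set ST : ℝ := ∑ v ∈ range T, hh z r e n v with hST
  have hSf0 : 0 ≤ Sf := Finset.sum_nonneg fun v _ => hPn v
  have hST0 : 0 ≤ ST := Finset.sum_nonneg fun v _ => hhn v
  have hSf1 : Sf ≤ (C0 + 1 : ℝ) ^ f.primeFactors.card := by
    rw [g2, ← Finset.prod_const]
    exact Finset.prod_le_prod (fun p _ => Finset.sum_nonneg fun v _ => phi_nonneg _ _ _)
      (fun p hp => phi_sum C0 p (hpr p hp))
  have hf0 : (0 : ℝ) < f := by exact_mod_cast hf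
  have hT0 : (0 : ℝ) < T := by exact_mod_cast hT1
  have hAN : 0 ≤ AN z r n := by
    by_contra hcon
    push Not at hcon
    have := mul_neg_of_neg_of_pos hcon hT0
    linarith
  have key := h6c (f * T) (fun v => (∏ p ∈ f.primeFactors, phi C0 p v) * hh z r e n v) F I
    (Sf * ST / ((f : ℝ) * T)) (Nat.mul_pos hf hT1) (fun v => mul_nonneg (hPn v) (hhn v)) (by
      intro v
      have p1 : Function.Periodic (fun v => ∏ p ∈ f.primeFactors, phi C0 p v) f := g1
      have p2 : Function.Periodic (fun v => hh z r e n v) T := t1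
      have e1 := p1.nat_mul T v
      have e2 := p2.nat_mul f v
      simp only [Nat.cast_id] at e1 e2
      rw [mul_comm T f] at e1
      show (∏ p ∈ f.primeFactors, phi C0 p (v + f * T)) * hh z r e n (v + f * T) = _
      rw [e1, e2]) (by
      rw [sum_coprime f T hfT hf hT1 (fun v => ∏ p ∈ f.primeFactors, phi C0 p v)
        (fun v => hh z r e n v) g1 t1]
      push_cast
      field_simp
      rfl) hF hFn hFI V
  calc ∑ v ∈ Finset.Icc 1 V, F v * |kap X ρ f v| * hh z r e n v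
      ≤ ∑ v ∈ Finset.Icc 1 V, GG X ρ *
        ((∏ p ∈ f.primeFactors, phi C0 p v) * hh z r e n v * F v) := by
        refine Finset.sum_le_sum fun v _ => ?_
        have h1 := kap_le' hS f v hf hsf
        have h2 := hFn (v : ℝ)
        have h3 := hhn v
        calc F v * |kap X ρ f v| * hh z r e n v
            ≤ F v * (GG X ρ * ∏ p ∈ f.primeFactors, phi C0 p v) * hh z r e n v := by gcongr
          _ = _ := by ring
    _ = GG X ρ * ∑ v ∈ Finset.Icc 1 V,
        (∏ p ∈ f.primeFactors, phi C0 p v) * hh z r e n v * F v := by rw [Finset.mul_sum]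
    _ ≤ GG X ρ * (Sf * ST / ((f : ℝ) * T) * (((f * T : ℕ) : ℝ) * F 0 + I)) :=
        mul_le_mul_of_nonneg_left key hG
    _ ≤ GG X ρ * (((C0 + 1 : ℝ) ^ f.primeFactors.card / f * AN z r n) *
        ((F0 : ℝ) * T * F 0 + I)) := by
        refine mul_le_mul_of_nonneg_left ?_ hG
        have hb : 0 ≤ (C0 + 1 : ℝ) ^ f.primeFactors.card / f * AN z r n := by positivity
        apply mul_le_mul _ _ _ hb
        · rw [div_le_iff₀ (by positivity)]
          calc Sf * ST ≤ (C0 + 1 : ℝ) ^ f.primeFactors.card * (AN z r n * T) :=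
                mul_le_mul hSf1 t2 hST0 (by positivity)
            _ = _ := by field_simp
        · have h5 : ((f * T : ℕ) : ℝ) ≤ (F0 : ℝ) * T := by
            push_cast
            exact mul_le_mul_of_nonneg_right (by exact_mod_cast hfF) hT0.le
          have := mul_le_mul_of_nonneg_right h5 (hFn 0)
          linarith
        · have := hFn 0
          positivity
    _ = _ := by ring

end Pool.Agent.N71.PS.AV
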