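import Pool.Agent.N71.PS.DStubs
import Pool.Agent.H38R2.CG.TB6a
import Pool.Agent.H38R2.CG.TB3c

/-!
# Product of the local densities
-/

set_option autoImplicit false

namespace Pool.Agent.N71.PS.LOC

open Finset Filter NumberField Pool.Agent.H38R2.CG Pool.Agent.H38R2.CG2
open Pool.Agent.H38R2.CG.TB6ah Pool.Agent.H38R2.CG.TB3ch
open scoped Classical

/-- the indicator of the congruence -/
noncomputable def idc (c m u : ℕ) : ℝ := if u ^ 2 ≡ c [MOD m] then 1 else 0

theorem cnt_eq (c m : ℕ) : (cnt c m : ℝ) = ∑ u ∈ range m, idc c m u := by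
  unfold cnt idc
  rw [Finset.card_filter]
  push_cast
  rfl

theorem idc_per (c m u : ℕ) : idc c m (u + m) = idc c m u := by
  unfold idc
  have h : (u + m) ^ 2 ≡ u ^ 2 [MOD m] := by
    apply Nat.ModEq.pow
    exact Nat.add_modEq_right
  have h2 : (u + m) ^ 2 ≡ c [MOD m] ↔ u ^ 2 ≡ c [MOD m] :=
    ⟨fun h3 => h.symm.trans h3, fun h3 => h.trans h3⟩
  simp only [h2]

theorem cnt_mul_eq (c a b : ℕ) (ha : 0 < a) (hb : 0 < b) (hab : a.Coprime b) :
    (cnt c (a * b) : ℝ) = cnt c a * cnt c b := by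
  rw [cnt_eq, cnt_eq, cnt_eq, ← sum_coprime a b hab ha hb _ _ (idc_per c a) (idc_per c b)]
  refine sum_congr rfl fun u _ => ?_
  unfold idc
  by_cases h3 : u ^ 2 ≡ c [MOD a * b]
  · obtain ⟨h1, h2⟩ := (Nat.modEq_and_modEq_iff_modEq_mul hab).2 h3
    rw [if_pos h3, if_pos h1, if_pos h2, one_mul]
  · rw [if_neg h3]
    by_cases h1 : u ^ 2 ≡ c [MOD a]
    · have h2 : ¬ u ^ 2 ≡ c [MOD b] := fun h2 =>
        h3 ((Nat.modEq_and_modEq_iff_modEq_mul hab).1 ⟨h1, h2⟩)
      rw [if_neg h2, mul_zero]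
    · rw [if_neg h1, zero_mul]

theorem cop (S : Finset ℕ) (hS : ∀ l ∈ S, l.Prime) (p : ℕ) (hp : p.Prime) (hpS : p ∉ S)
    (i : ℕ) (e : ℕ → ℕ) : (p ^ i).Coprime (∏ l ∈ S, l ^ e l) := by
  apply Nat.Coprime.prod_right
  intro l hl
  apply Nat.Coprime.pow
  rw [Nat.coprime_primes hp (hS l hl)]
  rintro rfl
  exact hpS hl

theorem cnt_prod_eq (c : ℕ) (S : Finset ℕ) (hS : ∀ l ∈ S, l.Prime) (e : ℕ → ℕ) :
    (cnt c (∏ p ∈ S, p ^ e p) : ℝ) = ∏ p ∈ S, (cnt c (p ^ e p) : ℝ) := by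
  induction S using Finset.induction_on with
  | empty =>
    simp only [Finset.prod_empty]
    unfold cnt
    have h1 : (Finset.range 1).filter (fun u => u ^ 2 ≡ c [MOD 1]) = Finset.range 1 :=
      Finset.filter_true_of_mem (fun u _ => Nat.modEq_one)
    rw [h1]
    simp
  | insert p S hpS ih =>
    rw [Finset.prod_insert hpS, Finset.prod_insert hpS]
    have hS' : ∀ l ∈ S, l.Prime := fun l hl => hS l (Finset.mem_insert_of_mem hl)
    have hpp : p.Prime := hS p (Finset.mem_insert_self _ _)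
    rw [cnt_mul_eq c _ _ (pow_pos hpp.pos _)
      (Finset.prod_pos fun l hl => pow_pos (hS' l hl).pos _) (cop S hS' p hpp hpS _ e), ih hS']

/-- the primes -/
def PS2 (z : ℕ) : Finset ℕ := insert 2 (OP z)

theorem PS2_prime {z l : ℕ} (h : l ∈ PS2 z) : l.Prime := by
  rcases Finset.mem_insert.1 h with h | h
  · rw [h]; exact Nat.prime_two
  · exact OP_prime h

theorem primeFactors_Qz {z : ℕ} (hz : 2 ≤ z) : (Qz z).primeFactors = PS2 z := by
  ext l
  rw [Nat.mem_primeFactors, PS2, mem_insert]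
  constructor
  · rintro ⟨hl, h, -⟩
    exact (dvd_Qz hz hl).1 h
  · intro h
    have hl : l.Prime := by
      rcases h with h | h
      · rw [h]; exact Nat.prime_two
      · exact OP_prime h
    exact ⟨hl, (dvd_Qz hz hl).2 h, (TB6ah.Qz_pos z).ne'⟩

/-- exponents of Q -/
def kk (p : ℕ) : ℕ := if p = 2 then 4 else 2

theorem Qz_prod (z : ℕ) : Qz z = ∏ p ∈ PS2 z, p ^ kk p := by
  rw [PS2, Finset.prod_insert (two_notMem z), Qz_eq]
  have h1 : (2 : ℕ) ^ kk 2 = 16 := by norm_num [kk]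
  rw [h1]
  congr 1
  refine Finset.prod_congr rfl fun l hl => ?_
  have : l ≠ 2 := fun h => two_notMem z (h ▸ hl)
  rw [kk, if_neg this]

theorem qpart_prod {z v : ℕ} (hz : 2 ≤ z) : qpart z v = ∏ p ∈ PS2 z, p ^ v.factorization p := by
  unfold qpart
  apply Finset.prod_subset_one_on_sdiff
  · intro p hp
    rw [Finset.mem_filter] at hp
    have h1 := (dvd_Qz hz (Nat.prime_of_mem_primeFactors hp.1)).1 hp.2
    exact Finset.mem_insert.2 h1
  · intro p hp
    rw [Finset.mem_sdiff, Finset.mem_filter, not_and] at hp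
    have hpp := PS2_prime hp.1
    have h1 : p ∣ Qz z := (dvd_Qz hz hpp).2 (Finset.mem_insert.1 hp.1)
    have h2 : p ∉ v.primeFactors := fun h => hp.2 h h1
    have h3 : v.factorization p = 0 := by
      rw [← Nat.support_factorization] at h2
      exact Finsupp.notMem_support_iff.1 h2
    rw [h3, pow_zero]
  · intro p _
    rfl

theorem rhoQ_prod {z : ℕ} (hz : 2 ≤ z) (r n v : ℕ) :
    (rhoQ z r n v : ℝ) = ∏ p ∈ PS2 z,
      (cnt (4 * n + r * v ^ 2) (p ^ (kk p + 2 * v.factorization p)) : ℝ) := by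
  rw [← cnt_prod_eq _ _ (fun l hl => PS2_prime hl)]
  have h1 : Qz z * (qpart z v) ^ 2 = ∏ p ∈ PS2 z, p ^ (kk p + 2 * v.factorization p) := by
    rw [qpart_prod hz, ← Finset.prod_pow, Qz_prod, ← Finset.prod_mul_distrib]
    refine Finset.prod_congr rfl fun p _ => ?_
    rw [pow_add, ← pow_mul, mul_comm (v.factorization p) 2]
  unfold rhoQ
  rw [h1]
  rfl

theorem hh_prod {z : ℕ} (hz : 2 ≤ z) (r e n v : ℕ) :
    hh z r e n v = ∏ p ∈ PS2 z, hp p (kk p) r e n v := by
  unfold hh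
  rw [primeFactors_Qz hz]
  split_ifs with h
  · rw [rhoQ_prod hz]
    refine Finset.prod_congr rfl fun p hpp => ?_
    unfold hp
    rw [if_pos (h p hpp)]
    rfl
  · push Not at h
    obtain ⟨p, hp1, hp2⟩ := h
    symm
    apply Finset.prod_eq_zero hp1
    unfold hp
    rw [if_neg (not_not.2 hp2)]

theorem hp_nonneg (p k r e n v : ℕ) : 0 ≤ hp p k r e n v := by
  unfold hp
  split_ifs
  · exact le_refl (0 : ℝ)
  · exact Nat.cast_nonneg _

/-- exponents of the period -/
def ee (e p : ℕ) : ℕ := if p = 2 then 2 * e + 6 else 2 * e + 4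

theorem sum_prod_crt (S : Finset ℕ) (hS : ∀ l ∈ S, l.Prime) (t : ℕ → ℕ) (h : ℕ → ℕ → ℝ)
    (hper : ∀ l ∈ S, ∀ v, h l (v + l ^ t l) = h l v) :
    (∀ v, ∏ l ∈ S, h l (v + ∏ l ∈ S, l ^ t l) = ∏ l ∈ S, h l v) ∧
    ∑ v ∈ range (∏ l ∈ S, l ^ t l), ∏ l ∈ S, h l v = ∏ l ∈ S, ∑ v ∈ range (l ^ t l), h l v := by
  constructor
  · intro v
    refine Finset.prod_congr rfl fun l hl => ?_
    obtain ⟨k, hk⟩ := Finset.dvd_prod_of_mem (fun l => l ^ t l) hl
    rw [hk, mul_comm]
    have hp : Function.Periodic (h l) (l ^ t l) := hper l hl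
    exact hp.nat_mul k v
  · induction S using Finset.induction_on with
    | empty => simp
    | insert p S hpS ih =>
      have hS' : ∀ l ∈ S, l.Prime := fun l hl => hS l (Finset.mem_insert_of_mem hl)
      have hper' : ∀ l ∈ S, ∀ v, h l (v + l ^ t l) = h l v :=
        fun l hl => hper l (Finset.mem_insert_of_mem hl)
      have hpp : p.Prime := hS p (Finset.mem_insert_self _ _)
      simp only [Finset.prod_insert hpS]
      rw [← ih hS' hper']
      refine sum_coprime (p ^ t p) (∏ l ∈ S, l ^ t l) (cop S hS' p hpp hpS _ t)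
        (pow_pos hpp.pos _) (Finset.prod_pos fun l hl => pow_pos (hS' l hl).pos _)
        (h p) (fun v => ∏ l ∈ S, h l v) (hper p (Finset.mem_insert_self _ _)) ?_
      intro v
      refine Finset.prod_congr rfl fun l hl => ?_
      obtain ⟨k, hk⟩ := Finset.dvd_prod_of_mem (fun l => l ^ t l) hl
      rw [hk, mul_comm]
      have hp : Function.Periodic (h l) (l ^ t l) := hper' l hl
      exact hp.nat_mul k v

theorem D_LOC_true (h1 : D_LO) (h2 : D_L2) : D_LOC := by
  intro z r e hz hr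
  refine ⟨∏ p ∈ PS2 z, p ^ ee e p, ?_, ?_, ?_⟩
  · exact Nat.one_le_iff_ne_zero.2
      (Finset.prod_pos fun l hl => pow_pos (PS2_prime hl).pos _).ne'
  · intro p hp hpT
    obtain ⟨l, hl, hd⟩ := (Prime.dvd_finsetProd_iff hp.prime _).1 hpT
    have h3 := (Nat.prime_dvd_prime_iff_eq hp (PS2_prime hl)).1 (hp.dvd_of_dvd_pow hd)
    rw [h3]
    exact (dvd_Qz hz (PS2_prime hl)).2 (Finset.mem_insert.1 hl)
  · intro n hn
    have hnd : ∀ p ∈ PS2 z, ¬ p ∣ n := by
      intro p hp hd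
      exact Nat.Prime.not_coprime_iff_dvd.2 ⟨p, PS2_prime hp, hd,
          (dvd_Qz hz (PS2_prime hp)).2 (Finset.mem_insert.1 hp)⟩ hn
    have hloc : ∀ p ∈ PS2 z, (∀ v, hp p (kk p) r e n (v + p ^ ee e p) = hp p (kk p) r e n v) ∧
        ∑ v ∈ Finset.range (p ^ ee e p), hp p (kk p) r e n v ≤
          (if p = 2 then al2 r n else al p r n) * (p : ℝ) ^ ee e p := by
      intro p hp
      by_cases hp2 : p = 2
      · subst hp2
        simp only [kk, ee, if_true]
        exact h2 r e n hr.2.1 (hnd 2 hp)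
      · simp only [kk, ee, if_neg hp2]
        have hpO : p ∈ OP z := (Finset.mem_insert.1 hp).resolve_left hp2
        exact h1 p r e n (PS2_prime hp) hp2 (hr.2.2 p hpO) (hnd p hp)
    obtain ⟨g1, g2⟩ := sum_prod_crt (PS2 z) (fun l hl => PS2_prime hl) (ee e)
      (fun p v => hp p (kk p) r e n v) (fun l hl => (hloc l hl).1)
    refine ⟨fun v => ?_, ?_⟩
    · rw [hh_prod hz, hh_prod hz]
      exact g1 v
    · simp only [hh_prod hz]
      rw [g2]
      refine (Finset.prod_le_prod (fun p _ => Finset.sum_nonneg fun v _ => hp_nonneg _ _ _ _ _ _)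
        (fun p hp => (hloc p hp).2)).trans (le_of_eq ?_)
      rw [Finset.prod_mul_distrib]
      push_cast
      congr 1
      unfold AN
      rw [PS2, Finset.prod_insert (two_notMem z), if_pos rfl]
      congr 1
      refine Finset.prod_congr rfl fun l hl => ?_
      have : l ≠ 2 := fun h => two_notMem z (h ▸ hl)
      rw [if_neg this]

end Pool.Agent.N71.PS.LOC
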