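import Pool.Agent.N71.PS.DStubs
import Pool.Agent.N71.PS.NBAD

/-!
# Sums over k-subsets with one character
-/

set_option autoImplicit false

namespace Pool.Agent.N71.PS.NBAD

open Finset Filter NumberField Pool.Agent.H38R2.CG Pool.Agent.H38R2.CG2
open scoped Classical

variable [PSet]

open NBADh in
theorem D_NBAD_true (hNB : P2_NB) (hCC : P2_CC4) : D_NBAD := by
  intro β hβ a ha M hM C1 i0 l ε hl hε
  obtain ⟨c, hc0, hc1, y0, hy0⟩ := hCC β hβ M hM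
  obtain ⟨X1, hX1⟩ := hNB a ha 1 one_pos
  have hδ : 0 < ε / (2500 * Real.exp (2 * c * (i0 + 1))) := by positivity
  have hev : ∀ᶠ X : ℕ in atTop, X1 ≤ X ∧ y0 ≤ yA a X ∧ l ≤ √(yA a X : ℝ) ∧
      0 < Real.log X ∧ ((i0 : ℝ) + 1) ≤ √(Real.log X) ∧
      (1 + √(Real.log X)) ^ (2 * (C1 + 2)) ≤
        ε / (2500 * Real.exp (2 * c * (i0 + 1))) * Real.exp (2 * c * (1 + √(Real.log X))) := by
    filter_upwards [eventually_ge_atTop X1, (tendsto_yA ha).eventually_ge_atTop y0,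
      (tendsto_sqrt_yA ha).eventually_ge_atTop l, tendsto_logX.eventually_gt_atTop 0,
      tendsto_sqrtLog.eventually_ge_atTop ((i0 : ℝ) + 1),
      ev_exp (c := 2 * c) (by linarith) (2 * (C1 + 2)) hδ] with X h1 h2 h3 h4 h5 h6
    exact ⟨h1, h2, h3, h4, h5, h6⟩
  obtain ⟨X0, hX0⟩ := eventually_atTop.1 hev
  refine ⟨X0, fun X hX k hk1 hk2 => ?_⟩
  obtain ⟨g1, g2, g3, g4, g5, g6⟩ := hX0 X hX
  obtain ⟨n1, n2, n3, n4, n5, n6, n7, n8⟩ := hX1 X g1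
  have hKk : kA a X ≤ k + i0 := by omega
  have hk : 1 ≤ k := by
    have h1 : ((i0 : ℝ) + 1) ≤ kA a X := g5.trans n5
    have h2 : i0 + 1 ≤ kA a X := by exact_mod_cast h1
    omega
  have hkc : k ^ 2 ≤ (PP (yA a X)).card := by
    have h1 : k ^ 2 ≤ (kA a X) ^ 2 := Nat.pow_le_pow_left hk2 2
    have h2 : 4 * (kA a X) ^ 2 ≤ (PP (yA a X)).card := n7
    omega
  refine ⟨50 * √(k : ℝ) * (1 - c) ^ k * CA a X k, ?_, ?_, ?_⟩
  · have h1 : 0 ≤ (1 - c) ^ k := pow_nonneg (by linarith) k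
    have h2 : 0 ≤ CA a X k := by unfold CA; positivity
    positivity
  · have h1 := est (c := c) (ε := ε) (L := Real.log X) (k := k) (K := kA a X) (i0 := i0)
      (C1 := C1) hc0 hc1 hε g4 hk2 hKk n4 n5 g6
    have h2 : 0 ≤ (CA a X k) ^ 2 := sq_nonneg _
    have h3 : (50 * √(k : ℝ) * (1 - c) ^ k * CA a X k) ^ 2 * (1 + Real.log X) ^ C1 =
        (2500 * k * ((1 - c) ^ k) ^ 2 * (1 + Real.log X) ^ C1) * (CA a X k) ^ 2 := by
      have h4 : √(k : ℝ) ^ 2 = k := Real.sq_sqrt (Nat.cast_nonneg k)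
      calc (50 * √(k : ℝ) * (1 - c) ^ k * CA a X k) ^ 2 * (1 + Real.log X) ^ C1
          = 2500 * √(k : ℝ) ^ 2 * ((1 - c) ^ k) ^ 2 * (1 + Real.log X) ^ C1 *
            (CA a X k) ^ 2 := by ring
        _ = _ := by rw [h4]
    rw [h3]
    exact mul_le_mul_of_nonneg_right h1 h2
  · intro ψ f hf hfM hbad ξ hξ
    exact hy0 (yA a X) g2 ψ f hf hfM hbad k hk hkc ξ (hξ.trans g3)

end Pool.Agent.N71.PS.NBAD
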