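import Pool.Agent.N71.PS.DStubs
import Pool.Agent.N71.PS.TC
import Pool.Agent.N71.PS.CC7

/-!
# Upper bound for small c
-/

set_option autoImplicit false

namespace Pool.Agent.N71.PS.TC

open Finset Filter NumberField Pool.Agent.H38R2.CG Pool.Agent.H38R2.CG2
open scoped Classical

variable [PSet]

open TCh in
theorem D_TC_true : P2_NB → P2_FJ → P2_FS → P2_JX → P2_KB → P2_HS → D_CC7 → D_NBAD → D_TC := by
  intro _ hFJ hFS hJX hKB hHS hCC7 hNBAD a ha C0 hC0
  rcases hCC7 with ⟨K0, hCC7⟩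
  obtain ⟨C', hC', hom⟩ := CC7h.omega_bound (2 * C0) 1 one_pos
  refine ⟨K0 * C' + 2, by positivity, fun z i0 l hl => ?_⟩
  rcases hCC7 a ha 1 le_rfl (2 * C0) 1 one_pos with ⟨F0, X1, hX1⟩
  rcases hNBAD (1 / 2) (by norm_num) a ha 1 le_rfl (2 * C0) i0 l 1 hl one_pos with ⟨X2, hX2⟩
  rcases yA_large a ha (z + 2) with ⟨X3, hX3⟩
  refine ⟨max (max X1 X2) (max X3 3), fun X hX ρ hρ c w V F I t hc hci hw hwQ hF hF0 hFI hV => ?_⟩
  have hXX1 : X1 ≤ X := le_trans (le_trans (le_max_left _ _) (le_max_left _ _)) hX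
  have hXX2 : X2 ≤ X := le_trans (le_trans (le_max_right _ _) (le_max_left _ _)) hX
  have hXX3 : X3 ≤ X := le_trans (le_trans (le_max_left _ _) (le_max_right _ _)) hX
  have hXX4 : 3 ≤ X := le_trans (le_trans (le_max_right _ _) (le_max_right _ _)) hX
  have hXpos : (0 : ℝ) < X := by exact_mod_cast (by omega : 0 < X)
  have hX1le : (1 : ℝ) ≤ X := by exact_mod_cast (by omega : 1 ≤ X)
  have hlog : 0 < Real.log X := Real.log_pos (by exact_mod_cast (by omega : 1 < X))
  have hP : ∀ p ∈ PA a X, p.Prime ∧ ¬ p ∣ Qz z := by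
    intro p hp
    unfold PA PP at hp
    rw [Finset.mem_filter, Finset.mem_Ioc] at hp
    have := hX3 X hXX3
    exact ⟨hp.2.1, not_dvd_Qz z p hp.2.1 (by omega) (by omega)⟩
  have hGG : 0 ≤ GG X ρ := le_trans (by positivity) hρ.low
  have hI : 0 ≤ I := by simpa using hFI 0 le_rfl
  set k := kA a X - c.card with hk
  rcases hX2 X hXX2 k (by omega) (by omega) with ⟨b, hb0, hb, hb2⟩
  set Fam := (Finset.Icc 1 X).filter
    (fun f => Squarefree f ∧ f.Coprime (Qz z) ∧ ∀ p ∈ c, ¬ p ∣ f) with hFam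
  set SV := (Finset.Icc 1 V).filter (fun v => w ∣ v) with hSV
  -- expansion
  have hexp : ∀ v ∈ SV, UJ a z X k ρ c F l t v =
      ∑ f ∈ Fam, G a X k c l t f * (F v * (tau c v * kap X ρ f v)) := by
    intro v hv
    rw [hSV, Finset.mem_filter, Finset.mem_Icc] at hv
    have hv2 : (v : ℝ) * (X : ℝ) ^ (cc a) ≤ X := by
      have h1 : (v : ℝ) ≤ (X : ℝ) ^ (1 - cc a) := le_trans (by exact_mod_cast hv.1.2) hV
      calc (v : ℝ) * (X : ℝ) ^ (cc a) ≤ (X : ℝ) ^ (1 - cc a) * (X : ℝ) ^ (cc a) := by gcongr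
        _ = X := by rw [← Real.rpow_add hXpos]; simp
    unfold UJ
    have h3 : ∀ s t' : Finset ℕ, JJ z X ρ c (prodS s * prodS t') v *
      fej (l * (Real.log (prodS c ^ 2 * (prodS s * prodS t') : ℕ) - t)) =
      ∑ f ∈ Fam, (tau c v * kap X ρ f v) * (((jacobiSym ((prodS s * prodS t' : ℕ) : ℤ) f : ℤ) : ℝ) *
        fej (l * (Real.log (prodS c ^ 2 * (prodS s * prodS t') : ℕ) - t))) := by
      intro s t'
      rw [hJX z X (PA a X) (cc a) C0 ρ c (prodS s * prodS t') v hρ hc hP hv.1.1 hv2,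
        mul_assoc, Finset.sum_mul, Finset.mul_sum]
      apply Finset.sum_congr rfl
      intro f _
      ring
    simp_rw [h3]
    unfold G
    rw [Finset.mul_sum]
    simp_rw [Finset.sum_mul, Finset.mul_sum]
    rw [Finset.sum_congr rfl (fun s _ => Finset.sum_comm), Finset.sum_comm]
    apply Finset.sum_congr rfl
    intro f _
    apply Finset.sum_congr rfl
    intro s _
    apply Finset.sum_congr rfl
    intro t' _
    ring
  rw [Finset.sum_congr rfl hexp, Finset.sum_comm]
  -- bound for each f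
  have hf : ∀ f ∈ Fam, ∑ v ∈ SV, G a X k c l t f * (F v * (tau c v * kap X ρ f v)) ≤
      |G a X k c l t f| * ((2 * C0 : ℝ) ^ f.primeFactors.card / f) *
        (3 ^ c.card * GG X ρ * (I / w)) := by
    intro f hf
    rw [hFam, Finset.mem_filter, Finset.mem_Icc] at hf
    obtain ⟨⟨hf1, _⟩, hfs, hfQ, hfc⟩ := hf
    have hwf : w.Coprime f := by
      apply Nat.coprime_of_dvd
      intro p hp hpw hpf
      have h1 := hwQ p hp hpw
      have h2 := Nat.dvd_gcd hpf h1
      rw [hfQ] at h2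
      exact hp.one_lt.ne' (Nat.dvd_one.1 h2)
    have hcp : ∀ p ∈ c, p.Prime ∧ ¬ p ∣ f ∧ ¬ p ∣ w := by
      intro p hp
      refine ⟨(hP p (hc hp)).1, hfc p hp, fun h => (hP p (hc hp)).2 (hwQ p (hP p (hc hp)).1 h)⟩
    have h1 := hKB z X V f w (PA a X) (cc a) C0 ρ c F I hρ hC0 hw hf1 hfs hwf hcp hF hF0 hFI
    calc ∑ v ∈ SV, G a X k c l t f * (F v * (tau c v * kap X ρ f v))
        ≤ ∑ v ∈ SV, |G a X k c l t f| * (F v * (tau c v * |kap X ρ f v|)) := by
          apply Finset.sum_le_sum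
          intro v _
          refine (le_abs_self _).trans ?_
          rw [abs_mul, abs_mul, abs_mul, abs_of_nonneg (hF0 _), abs_of_nonneg (tau_nonneg c v)]
      _ = |G a X k c l t f| * ∑ v ∈ SV, (F v * (tau c v * |kap X ρ f v|)) := by
          rw [Finset.mul_sum]
      _ ≤ |G a X k c l t f| *
          (3 ^ c.card * (2 * C0 : ℝ) ^ f.primeFactors.card * GG X ρ / f * (I / w)) :=
          mul_le_mul_of_nonneg_left h1 (abs_nonneg _)
      _ = _ := by ring
  refine (Finset.sum_le_sum hf).trans ?_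
  rw [← Finset.sum_mul, mul_comm]
  apply mul_le_mul_of_nonneg_left _ (by positivity)
  -- split the family
  have hSF0 : 0 ≤ SF a X k c l t := (abs_nonneg _).trans (G_le_SF hFJ a X k c l t 1)
  have hW0 : ∀ f : ℕ, 0 ≤ (2 * C0 : ℝ) ^ f.primeFactors.card / f := fun f => by positivity
  have hpt : ∀ f ∈ Fam, |G a X k c l t f| * ((2 * C0 : ℝ) ^ f.primeFactors.card / f) ≤
      (if f = 1 then SF a X k c l t else 0) +
      ((if (Squarefree f ∧ f.Coprime (2 * 1) ∧ BadF (1 / 2) 1 (yA a X) f) then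
        SF a X k c l t * ((2 * C0 : ℝ) ^ f.primeFactors.card / f) else 0) +
      (if Squarefree f then b ^ 2 * ((2 * C0 : ℝ) ^ f.primeFactors.card / f) else 0)) := by
    intro f hf
    rw [hFam, Finset.mem_filter, Finset.mem_Icc] at hf
    obtain ⟨⟨hf1, _⟩, hfs, hfQ, hfc⟩ := hf
    have hG := G_le_SF hFJ a X k c l t f
    have hSW : 0 ≤ SF a X k c l t * ((2 * C0 : ℝ) ^ f.primeFactors.card / f) :=
      mul_nonneg hSF0 (hW0 f)
    have hbW : 0 ≤ b ^ 2 * ((2 * C0 : ℝ) ^ f.primeFactors.card / f) :=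
      mul_nonneg (by positivity) (hW0 f)
    rw [if_pos hfs]
    by_cases h1 : f = 1
    · rw [if_pos h1]
      have : (2 * C0 : ℝ) ^ f.primeFactors.card / f = 1 := by rw [h1]; simp
      have e2 : |G a X k c l t f| * ((2 * C0 : ℝ) ^ f.primeFactors.card / f) ≤ SF a X k c l t := by
        rw [this, mul_one]; exact hG
      split_ifs <;> linarith
    · rw [if_neg h1]
      by_cases hB : BadF (1 / 2) 1 (yA a X) f
      · rw [if_pos ⟨hfs, coprime_two z f hfQ, hB⟩]
        have := mul_le_mul_of_nonneg_right hG (hW0 f)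
        linarith
      · rw [if_neg (fun h => hB h.2.2)]
        have h5 : |G a X k c l t f| ≤ b ^ 2 := by
          apply G_le_b hFS a X k c hc l t f hl b hb0
          intro ξ hξ
          have hcon : ‖∑ p ∈ PP (yA a X), (1 : DirichletCharacter ℂ 1) (p : ZMod 1) *
              ((jacobiSym (p : ℤ) f : ℤ) : ℂ)‖ ≤ 1 / 2 * (PP (yA a X)).card := by
            by_contra hcon
            exact hB ⟨1, fun h => h1 h.2, not_le.1 hcon⟩
          have h6 := hb2 1 f hfs (coprime_two z f hfQ) hcon ξ hξ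
          simpa only [char_one, one_mul] using h6
        have := mul_le_mul_of_nonneg_right h5 (hW0 f)
        linarith
  refine (Finset.sum_le_sum hpt).trans ?_
  have hFsub : Fam ⊆ Finset.Icc 1 X := Finset.filter_subset _ _
  have hmono : ∑ f ∈ Fam, ((if f = 1 then SF a X k c l t else 0) +
      ((if (Squarefree f ∧ f.Coprime (2 * 1) ∧ BadF (1 / 2) 1 (yA a X) f) then
        SF a X k c l t * ((2 * C0 : ℝ) ^ f.primeFactors.card / f) else 0) +
      (if Squarefree f then b ^ 2 * ((2 * C0 : ℝ) ^ f.primeFactors.card / f) else 0))) ≤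
      ∑ f ∈ Finset.Icc 1 X, ((if f = 1 then SF a X k c l t else 0) +
      ((if (Squarefree f ∧ f.Coprime (2 * 1) ∧ BadF (1 / 2) 1 (yA a X) f) then
        SF a X k c l t * ((2 * C0 : ℝ) ^ f.primeFactors.card / f) else 0) +
      (if Squarefree f then b ^ 2 * ((2 * C0 : ℝ) ^ f.primeFactors.card / f) else 0))) := by
    apply Finset.sum_le_sum_of_subset_of_nonneg hFsub
    intro f _ _
    have hSW : 0 ≤ SF a X k c l t * ((2 * C0 : ℝ) ^ f.primeFactors.card / f) :=
      mul_nonneg hSF0 (hW0 f)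
    have hbW : 0 ≤ b ^ 2 * ((2 * C0 : ℝ) ^ f.primeFactors.card / f) :=
      mul_nonneg (by positivity) (hW0 f)
    split_ifs <;> linarith
  refine hmono.trans ?_
  rw [Finset.sum_add_distrib, Finset.sum_add_distrib]
  have s1 : ∑ f ∈ Finset.Icc 1 X, (if f = 1 then SF a X k c l t else 0) = SF a X k c l t := by
    rw [Finset.sum_ite_eq' (Finset.Icc 1 X) 1 (fun _ => SF a X k c l t),
      if_pos (Finset.mem_Icc.2 ⟨le_rfl, by omega⟩)]
  have s2 : ∑ f ∈ Finset.Icc 1 X, (if (Squarefree f ∧ f.Coprime (2 * 1) ∧ BadF (1 / 2) 1 (yA a X) f) then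
        SF a X k c l t * ((2 * C0 : ℝ) ^ f.primeFactors.card / f) else 0) ≤
        (K0 * C' + 1) * SF a X k c l t := by
    rw [← Finset.sum_filter, ← Finset.mul_sum, mul_comm]
    apply mul_le_mul_of_nonneg_right _ hSF0
    have h0 := hX1 X hXX1
    rw [← Finset.sum_filter_add_sum_filter_not _ (fun f : ℕ => F0 < f), add_comm]
    apply add_le_add
    · have h7 : ∀ f ∈ ((Finset.Icc 1 X).filter (fun f => Squarefree f ∧ f.Coprime (2 * 1) ∧
          BadF (1 / 2) 1 (yA a X) f)).filter (fun f => ¬ F0 < f),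
          (2 * C0 : ℝ) ^ f.primeFactors.card / f ≤ C' := by
        intro f hf
        rw [Finset.mem_filter, Finset.mem_filter, Finset.mem_Icc] at hf
        have hf1 : (0 : ℝ) < f := by exact_mod_cast hf.1.1.1
        rw [div_le_iff₀ hf1]
        have := hom f hf.1.1.1
        rw [Real.rpow_one] at this
        push_cast at this
        exact this
      refine (Finset.sum_le_card_nsmul _ _ _ h7).trans ?_
      rw [nsmul_eq_mul]
      apply mul_le_mul_of_nonneg_right _ hC'.le
      have h8 : (((Finset.Icc 1 X).filter (fun f => Squarefree f ∧ f.Coprime (2 * 1) ∧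
          BadF (1 / 2) 1 (yA a X) f)).filter (fun f => ¬ F0 < f)).card ≤ K0 := by
        refine le_trans (Finset.card_le_card ?_) h0.1
        intro f hf
        rw [Finset.mem_filter, Finset.mem_filter, Finset.mem_Icc] at hf
        rw [Finset.mem_filter, Finset.mem_Icc]
        exact ⟨⟨hf.1.1.1, not_lt.1 hf.2⟩, hf.1.2⟩
      exact_mod_cast h8
    · have h9 := h0.2
      push_cast at h9
      refine le_trans (le_of_eq ?_) h9
      apply Finset.sum_congr _ (fun _ _ => rfl)
      ext f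
      simp only [Finset.mem_filter, Finset.mem_Icc]
      tauto
  have s3 : ∑ f ∈ Finset.Icc 1 X, (if Squarefree f then
      b ^ 2 * ((2 * C0 : ℝ) ^ f.primeFactors.card / f) else 0) ≤
      1 / Real.log X * (CA a X k) ^ 2 := by
    rw [← Finset.sum_filter, ← Finset.mul_sum]
    refine le_trans ?_ hb
    apply mul_le_mul_of_nonneg_left _ (by positivity)
    have := hHS (2 * C0) X (by omega)
    push_cast at this
    exact this
  rw [s1]
  have hCL : 0 ≤ (CA a X k) ^ 2 / Real.log X := by positivity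
  have hKC : 0 ≤ (K0 * C' + 1 : ℝ) * ((CA a X k) ^ 2 / Real.log X) := by positivity
  have e9 : 1 / Real.log X * (CA a X k) ^ 2 = (CA a X k) ^ 2 / Real.log X := by ring
  rw [e9] at s3
  nlinarith

end Pool.Agent.N71.PS.TC
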